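import Pool.Agent.Q237.LR.Stm4

set_option autoImplicit false

namespace Pool.Agent.Q192.LR

open Pool.Agent.Q237.LR4 Filter

/-- `log (1 + L) ≤ (1 + log (1/t) / log 2) log (1 + t L)` for `t L ≥ 1` -/
theorem log_le {t L : ℝ} (ht : 0 < t) (ht1 : t ≤ 1) (hL : 1 ≤ t * L) :
    Real.log (1 + L) ≤ (1 + Real.log (1 / t) / Real.log 2) * Real.log (1 + t * L) := by
  have hL0 : 0 < L := by
    by_contra h
    push Not at h
    nlinarith
  have h2 : 0 < Real.log 2 := Real.log_pos (by norm_num)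
  have ht' : 1 ≤ 1 / t := by
    rw [le_div_iff₀ ht]
    linarith
  have h3 : 0 ≤ Real.log (1 / t) := Real.log_nonneg ht'
  have h1 : Real.log (1 + L) ≤ Real.log (1 / t) + Real.log (1 + t * L) := by
    rw [← Real.log_mul (by positivity) (by positivity)]
    apply Real.log_le_log (by positivity)
    have : 1 / t * (1 + t * L) = 1 / t + L := by
      field_simp
    rw [this]
    linarith
  have h4 : Real.log 2 ≤ Real.log (1 + t * L) := Real.log_le_log (by norm_num) (by linarith)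
  have h5 : Real.log (1 / t) ≤ Real.log (1 / t) / Real.log 2 * Real.log (1 + t * L) := by
    calc Real.log (1 / t) = Real.log (1 / t) / Real.log 2 * Real.log 2 := by
          field_simp
      _ ≤ Real.log (1 / t) / Real.log 2 * Real.log (1 + t * L) :=
          mul_le_mul_of_nonneg_left h4 (by positivity)
  calc Real.log (1 + L) ≤ Real.log (1 / t) + Real.log (1 + t * L) := h1
    _ ≤ Real.log (1 / t) / Real.log 2 * Real.log (1 + t * L) + Real.log (1 + t * L) := by linarith
    _ = (1 + Real.log (1 / t) / Real.log 2) * Real.log (1 + t * L) := by ring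

theorem tend {d : ℕ} {α γ e t : ℝ} (hα : α ≤ d) (hγ : 0 ≤ γ) (hc : α < d ∨ 0 < γ) (he : 0 < |e|)
    (ht : 0 < t) :
    Tendsto (fun L : ℕ => |e| * ((L : ℝ) ^ ((d : ℝ) - α) * Real.log (1 + t * L) ^ γ)) atTop atTop := by
  have h3 : ∀ c : ℝ, ∀ᶠ L : ℕ in atTop, c ≤ (L : ℝ) := fun c =>
    (tendsto_natCast_atTop_atTop (R := ℝ)).eventually_ge_atTop c
  have h2 : 0 < Real.log 2 := Real.log_pos (by norm_num)
  rcases hc with hc | hc
  · have h1 : Tendsto (fun L : ℕ => |e| * ((L : ℝ) ^ ((d : ℝ) - α) * Real.log 2 ^ γ)) atTop atTop :=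
      (((tendsto_rpow_atTop (by linarith)).comp tendsto_natCast_atTop_atTop).atTop_mul_const
        (Real.rpow_pos_of_pos h2 γ)).const_mul_atTop he
    refine tendsto_atTop_mono' atTop ?_ h1
    filter_upwards [h3 (1 / t), h3 1] with L hL hL1
    have htL : 1 ≤ t * L := by
      have := (div_le_iff₀ ht).1 hL
      linarith
    have h4 : Real.log 2 ≤ Real.log (1 + t * L) := Real.log_le_log (by norm_num) (by linarith)
    have h5 : Real.log 2 ^ γ ≤ Real.log (1 + t * L) ^ γ := Real.rpow_le_rpow h2.le h4 hγ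
    have h6 : (0 : ℝ) ≤ (L : ℝ) ^ ((d : ℝ) - α) := Real.rpow_nonneg (by positivity) _
    exact mul_le_mul_of_nonneg_left (mul_le_mul_of_nonneg_left h5 h6) he.le
  · have h0 : Tendsto (fun L : ℕ => 1 + t * (L : ℝ)) atTop atTop :=
      tendsto_atTop_add_const_left _ _ ((tendsto_natCast_atTop_atTop (R := ℝ)).const_mul_atTop ht)
    have h1 : Tendsto (fun L : ℕ => |e| * (Real.log (1 + t * L) ^ γ)) atTop atTop :=
      ((tendsto_rpow_atTop hc).comp (Real.tendsto_log_atTop.comp h0)).const_mul_atTop he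
    refine tendsto_atTop_mono' atTop ?_ h1
    filter_upwards [h3 (1 / t), h3 1] with L hL hL1
    have htL : 1 ≤ t * L := by
      have := (div_le_iff₀ ht).1 hL
      linarith
    have h4 : 0 ≤ Real.log (1 + t * L) := Real.log_nonneg (by linarith)
    have h5 : 0 ≤ Real.log (1 + t * L) ^ γ := Real.rpow_nonneg h4 γ
    have h6 : (1 : ℝ) ≤ (L : ℝ) ^ ((d : ℝ) - α) := Real.one_le_rpow hL1 (by linarith)
    refine mul_le_mul_of_nonneg_left ?_ he.le
    calc Real.log (1 + t * L) ^ γ = 1 * Real.log (1 + t * L) ^ γ := (one_mul _).symm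
      _ ≤ (L : ℝ) ^ ((d : ℝ) - α) * Real.log (1 + t * L) ^ γ := mul_le_mul_of_nonneg_right h6 h5

theorem lp3 : S_LP3 := by
  classical
  intro d α γ e hd hα hαd hγ hc he δ hδ
  obtain ⟨t, ht0, ht1, ht2⟩ : ∃ t : ℝ, 0 < t ∧ 3 * t ≤ 1 ∧ 3 * t ≤ δ := by
    refine ⟨min (1 / 3) (δ / 3), lt_min (by norm_num) (by positivity), ?_, ?_⟩
    · have := min_le_left (1 / 3 : ℝ) (δ / 3)
      linarith
    · have := min_le_right (1 / 3 : ℝ) (δ / 3)
      linarith
  set K : ℝ := 1 + Real.log (1 / t) / Real.log 2 with hK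
  have h2 : 0 < Real.log 2 := Real.log_pos (by norm_num)
  have hK0 : 0 ≤ K := by
    have : 0 ≤ Real.log (1 / t) := Real.log_nonneg (by
      rw [le_div_iff₀ ht0]
      linarith)
    positivity
  refine ⟨t ^ (-α) * K ^ γ, fun M => ?_⟩
  have he' : 0 < |e| := abs_pos.2 he
  have h1 := tend (d := d) (t := t) hαd hγ hc he' ht0
  have h3 : ∀ c : ℝ, ∀ᶠ L : ℕ in atTop, c ≤ (L : ℝ) := fun c =>
    (tendsto_natCast_atTop_atTop (R := ℝ)).eventually_ge_atTop c
  obtain ⟨L, hL2, hL3, hL4, hL1⟩ := ((h1.eventually_ge_atTop M).and ((h3 (1 / t)).and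
    ((h3 M).and (h3 1)))).exists
  have hL : (0 : ℝ) < L := by linarith
  have htL : 1 ≤ t * L := by
    have := (div_le_iff₀ ht0).1 hL3
    linarith
  have hlt : 0 < Real.log (1 + t * L) := Real.log_pos (by linarith)
  let Q : Finset (Fin d → ℤ) := Fintype.piFinset fun _ => Finset.Ico 0 (L : ℤ)
  have hQ : (Q.card : ℝ) = (L : ℝ) ^ d := by
    have : Q.card = L ^ d := by simp [Q, Fintype.card_piFinset]
    rw [this]
    push_cast
    rfl
  have hβ : 0 < |e| * (L : ℝ) ^ (-α) * Real.log (1 + t * L) ^ γ :=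
    mul_pos (mul_pos he' (Real.rpow_pos_of_pos hL _)) (Real.rpow_pos_of_pos hlt _)
  refine ⟨Q, |e| * (L : ℝ) ^ (-α) * Real.log (1 + t * L) ^ γ,
    fun x => Q.filter (fun y => y ≠ x ∧ ‖x - y‖ ≤ t * L),
    fun x => Q.filter (fun y => ¬ ‖x - y‖ ≤ t * L), hβ, ?_, ?_, ?_, fun x hx => ⟨?_, ?_, ?_, ?_, ?_, ?_, ?_⟩⟩
  · rw [← Finset.card_pos]
    have : (0 : ℝ) < Q.card := by
      rw [hQ]
      positivity
    exact_mod_cast this
  · rw [hQ]
    exact hL4.trans (le_self_pow₀ hL1 (by omega))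
  · rw [hQ]
    refine hL2.trans (le_of_eq ?_)
    have h5 : (L : ℝ) ^ ((d : ℝ) - α) = (L : ℝ) ^ (-α) * (L : ℝ) ^ d := by
      rw [← Real.rpow_natCast, ← Real.rpow_add hL]
      congr 1
      ring
    rw [h5]
    ring
  · exact Finset.filter_subset _ _
  · exact Finset.filter_subset _ _
  · simp
  · simp only [Finset.mem_filter, not_and, not_not]
    intro _
    rw [sub_self, norm_zero]
    positivity
  · intro y hy
    rw [Finset.mem_erase] at hy
    rw [Finset.mem_union, Finset.mem_filter, Finset.mem_filter]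
    by_cases h : ‖x - y‖ ≤ t * L
    · exact Or.inl ⟨hy.2, hy.1, h⟩
    · exact Or.inr ⟨hy.2, h⟩
  · -- the number of near points
    have hk0 : (0 : ℤ) ≤ ⌊t * (L : ℝ)⌋ := Int.floor_nonneg.2 (by positivity)
    obtain ⟨k, hk⟩ : ∃ k : ℕ, ⌊t * (L : ℝ)⌋ = (k : ℤ) := Int.eq_ofNat_of_zero_le hk0
    have hkL : (k : ℝ) ≤ t * L := by
      have := Int.floor_le (t * (L : ℝ))
      rw [hk] at this
      exact_mod_cast this
    have hsub : Q.filter (fun y => y ≠ x ∧ ‖x - y‖ ≤ t * L) ⊆
        Fintype.piFinset fun i => Finset.Icc (x i - k) (x i + k) := by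
      intro y hy
      rw [Finset.mem_filter] at hy
      rw [Fintype.mem_piFinset]
      intro i
      have h5 : ‖(x - y) i‖ ≤ t * L := (norm_le_pi_norm _ i).trans hy.2.2
      rw [Int.norm_eq_abs, Pi.sub_apply] at h5
      have h6 : |x i - y i| ≤ (k : ℤ) := by
        rw [← hk, Int.le_floor]
        push_cast
        push_cast at h5
        exact h5
      rw [abs_le] at h6
      rw [Finset.mem_Icc]
      constructor <;> omega
    have h7 : ((Q.filter (fun y => y ≠ x ∧ ‖x - y‖ ≤ t * L)).card : ℝ) ≤ ((2 * k + 1 : ℕ) : ℝ) ^ d := by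
      have h8 := Finset.card_le_card hsub
      rw [Fintype.card_piFinset] at h8
      have h9 : ∀ i : Fin d, (Finset.Icc (x i - k) (x i + k)).card = 2 * k + 1 := by
        intro i
        rw [Int.card_Icc]
        omega
      rw [Finset.prod_congr rfl fun i _ => h9 i, Finset.prod_const, Finset.card_univ, Fintype.card_fin] at h8
      exact_mod_cast h8
    refine h7.trans ?_
    rw [hQ]
    have h10 : ((2 * k + 1 : ℕ) : ℝ) ≤ (3 * t) * L := by
      push_cast
      linarith
    calc ((2 * k + 1 : ℕ) : ℝ) ^ d ≤ ((3 * t) * L) ^ d := pow_le_pow_left₀ (by positivity) h10 d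
      _ = (3 * t) ^ d * (L : ℝ) ^ d := mul_pow _ _ _
      _ ≤ δ * (L : ℝ) ^ d := by
        refine mul_le_mul_of_nonneg_right ?_ (by positivity)
        refine le_trans ?_ ht2
        exact pow_le_of_le_one (by positivity) ht1 (by omega)
  · intro y hy
    rw [Finset.mem_filter] at hy
    obtain ⟨hyQ, hy⟩ := hy
    rw [not_le] at hy
    have hn0 : 0 < ‖x - y‖ := lt_of_le_of_lt (by positivity) hy
    have hne : x - y ≠ 0 := norm_pos_iff.1 hn0
    have hnL : ‖x - y‖ ≤ L := by
      rw [pi_norm_le_iff_of_nonneg hL.le]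
      intro i
      have hx' := (Fintype.mem_piFinset.1 hx) i
      have hy' := (Fintype.mem_piFinset.1 hyQ) i
      rw [Finset.mem_Ico] at hx' hy'
      rw [Int.norm_eq_abs, Pi.sub_apply]
      have : |x i - y i| ≤ (L : ℤ) := by
        rw [abs_le]
        constructor <;> omega
      exact_mod_cast this
    have hl1 : Real.log (1 + t * L) ≤ Real.log (1 + ‖x - y‖) :=
      Real.log_le_log (by positivity) (by linarith)
    have hl2 : Real.log (1 + ‖x - y‖) ≤ K * Real.log (1 + t * L) :=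
      (Real.log_le_log (by positivity) (by linarith)).trans (log_le ht0 (by linarith) htL)
    have hl0 : 0 ≤ Real.log (1 + ‖x - y‖) := hlt.le.trans hl1
    have habs : |pl d α γ e (x - y)| = |e| * ‖x - y‖ ^ (-α) * Real.log (1 + ‖x - y‖) ^ γ := by
      rw [pl, if_neg hne, abs_mul, abs_mul, abs_of_nonneg (Real.rpow_nonneg hn0.le (-α)),
        abs_of_nonneg (Real.rpow_nonneg hl0 γ)]
    rw [habs]
    constructor
    · refine mul_le_mul (mul_le_mul_of_nonneg_left
        (Real.rpow_le_rpow_of_nonpos hn0 hnL (by linarith)) he'.le)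
        (Real.rpow_le_rpow hlt.le hl1 hγ) (Real.rpow_nonneg hlt.le γ) ?_
      exact mul_nonneg he'.le (Real.rpow_nonneg hn0.le _)
    · have e1 : |e| * ‖x - y‖ ^ (-α) ≤ |e| * (t * L) ^ (-α) :=
        mul_le_mul_of_nonneg_left (Real.rpow_le_rpow_of_nonpos (by positivity) hy.le (by linarith)) he'.le
      have e2 : Real.log (1 + ‖x - y‖) ^ γ ≤ (K * Real.log (1 + t * L)) ^ γ :=
        Real.rpow_le_rpow hl0 hl2 hγ
      calc |e| * ‖x - y‖ ^ (-α) * Real.log (1 + ‖x - y‖) ^ γ
          ≤ |e| * (t * L) ^ (-α) * (K * Real.log (1 + t * L)) ^ γ :=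
            mul_le_mul e1 e2 (Real.rpow_nonneg hl0 γ)
              (mul_nonneg he'.le (Real.rpow_nonneg (by positivity) _))
        _ = t ^ (-α) * K ^ γ * (|e| * (L : ℝ) ^ (-α) * Real.log (1 + t * L) ^ γ) := by
          rw [Real.mul_rpow ht0.le hL.le, Real.mul_rpow hK0 hlt.le]
          ring

end Pool.Agent.Q192.LR
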